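import Pool.Agent.Run7.h131.AD.Iface

/-! Piece GB of project AD (helper131): crude bounds for the coefficients of the elements of `O`. -/

set_option autoImplicit false

namespace Run7.h440.AD

open Run7.h131.AD PowerSeries Finset

/-! ### the derivative -/

lemma D_add (f g : PS) : D (f + g) = D f + D g := map_add _ _ _

lemma D_neg (f : PS) : D (-f) = -D f := map_neg _ _

lemma D_mul (f g : PS) : D (f * g) = f * D g + g * D f := by
  unfold D
  rw [Derivation.leibniz, smul_eq_mul, smul_eq_mul]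

lemma D_C (x : ℚ) : D (C x) = 0 := by
  ext n
  unfold D
  rw [coeff_derivative, coeff_C]
  simp

lemma D_zero : D 0 = 0 := map_zero _

lemma D_one : D 1 = 0 := by
  have := D_C 1
  rwa [map_one] at this

lemma coeff_D (n : ℕ) (f : PS) : coeff n (D f) = coeff (n + 1) f * (n + 1) := by
  unfold D
  rw [coeff_derivative]

lemma coeff_iter (k : ℕ) : ∀ (n : ℕ) (f : PS),
    coeff n (D^[k] f) * (n.factorial : ℚ) = ((n + k).factorial : ℚ) * coeff (n + k) f := by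
  induction k with
  | zero => intro n f; simp [mul_comm]
  | succ k ih =>
    intro n f
    rw [Function.iterate_succ_apply, ih, coeff_D]
    have e1 : n + (k + 1) = (n + k) + 1 := by ring
    rw [e1, Nat.factorial_succ]
    push_cast
    ring

lemma ev_iter (k : ℕ) (f : PS) : ev (D^[k] f) = (k.factorial : ℚ) * coeff k f := by
  have h := coeff_iter k 0 f
  rw [Nat.factorial_zero, Nat.cast_one, mul_one, zero_add] at h
  rw [← h]
  unfold ev
  rw [coeff_zero_eq_constantCoeff]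

/-! ### integrality -/

lemma closure_D (X : Set PS) (hX : ∀ v ∈ X, D v ∈ Subring.closure X) :
    ∀ f ∈ Subring.closure X, D f ∈ Subring.closure X := by
  intro f hf
  induction hf using Subring.closure_induction with
  | mem x hx => exact hX x hx
  | zero => rw [D_zero]; exact Subring.zero_mem _
  | one => rw [D_one]; exact Subring.zero_mem _
  | add x y _ _ hx hy => rw [D_add]; exact Subring.add_mem _ hx hy
  | neg x _ hx => rw [D_neg]; exact Subring.neg_mem _ hx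
  | mul x y hx' hy' hx hy =>
    rw [D_mul]
    exact Subring.add_mem _ (Subring.mul_mem _ hx' hy) (Subring.mul_mem _ hy' hx)

lemma closure_ev (X : Set PS) (hX : ∀ v ∈ X, ∃ n : ℤ, ev v = n) :
    ∀ f ∈ Subring.closure X, ∃ n : ℤ, ev f = n := by
  intro f hf
  unfold ev at *
  induction hf using Subring.closure_induction with
  | mem x hx => exact hX x hx
  | zero => exact ⟨0, by simp⟩
  | one => exact ⟨1, by simp⟩
  | add x y _ _ hx hy =>
    obtain ⟨a, ha⟩ := hx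
    obtain ⟨b, hb⟩ := hy
    exact ⟨a + b, by rw [map_add, ha, hb]; push_cast; ring⟩
  | neg x _ hx =>
    obtain ⟨a, ha⟩ := hx
    exact ⟨-a, by rw [map_neg, ha]; push_cast; ring⟩
  | mul x y _ _ hx hy =>
    obtain ⟨a, ha⟩ := hx
    obtain ⟨b, hb⟩ := hy
    exact ⟨a * b, by rw [map_mul, ha, hb]; push_cast; ring⟩

lemma closure_coeff (X : Set PS) (hX : ∀ v ∈ X, D v ∈ Subring.closure X)
    (hX' : ∀ v ∈ X, ∃ n : ℤ, ev v = n) (f : PS) (hf : f ∈ Subring.closure X) (k : ℕ) :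
    ∃ n : ℤ, (k.factorial : ℚ) * coeff k f = n := by
  have h1 : ∀ k : ℕ, D^[k] f ∈ Subring.closure X := by
    intro k
    induction k with
    | zero => exact hf
    | succ k ih =>
      rw [Function.iterate_succ_apply']
      exact closure_D X hX _ ih
  obtain ⟨n, hn⟩ := closure_ev X hX' _ (h1 k)
  exact ⟨n, by rw [← ev_iter]; exact hn⟩

lemma clear {ι : Type} (b : ℕ) (hb : 1 ≤ b) (P : MvPolynomial ι ℚ) :
    ∃ m : ℕ, 1 ≤ m ∧ ∀ (y : ι → PS) (A : Subring PS), (∀ i, C (b : ℚ) * y i ∈ A) →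
      C (m : ℚ) * MvPolynomial.aeval y P ∈ A := by
  induction P using MvPolynomial.induction_on with
  | C x =>
    refine ⟨x.den, x.pos, fun y A _ => ?_⟩
    have e1 : C (x.den : ℚ) * MvPolynomial.aeval y (MvPolynomial.C x : MvPolynomial ι ℚ) = ((x.num : ℤ) : PS) := by
      rw [MvPolynomial.aeval_C]
      show C (x.den : ℚ) * C x = _
      rw [← map_mul, mul_comm, Rat.mul_den_eq_num]
      exact map_intCast C x.num
    rw [e1]
    exact intCast_mem A x.num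
  | add p q hp hq =>
    obtain ⟨m, hm, h1⟩ := hp
    obtain ⟨n, hn, h2⟩ := hq
    refine ⟨m * n, Nat.mul_pos hm hn, fun y A hA => ?_⟩
    have e1 : C ((m * n : ℕ) : ℚ) * MvPolynomial.aeval y (p + q) =
        ((n : ℕ) : PS) * (C (m : ℚ) * MvPolynomial.aeval y p) +
        ((m : ℕ) : PS) * (C (n : ℚ) * MvPolynomial.aeval y q) := by
      rw [map_add]
      have e2 : (C ((m * n : ℕ) : ℚ) : PS) = ((m : ℕ) : PS) * ((n : ℕ) : PS) := by
        rw [map_natCast]; push_cast; ring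
      rw [e2, map_natCast, map_natCast]
      ring
    rw [e1]
    exact A.add_mem (A.mul_mem (natCast_mem A n) (h1 y A hA)) (A.mul_mem (natCast_mem A m) (h2 y A hA))
  | mul_X p i hp =>
    obtain ⟨m, hm, h1⟩ := hp
    refine ⟨m * b, Nat.mul_pos hm hb, fun y A hA => ?_⟩
    have e1 : C ((m * b : ℕ) : ℚ) * MvPolynomial.aeval y (p * MvPolynomial.X i) =
        (C (m : ℚ) * MvPolynomial.aeval y p) * (C (b : ℚ) * y i) := by
      rw [map_mul, MvPolynomial.aeval_X]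
      push_cast
      rw [map_mul]
      ring
    rw [e1]
    exact A.mul_mem (h1 y A hA) (hA i)

lemma D_rescale (a : ℚ) (f : PS) : D (rescale a f) = C a * rescale a (D f) := by
  ext n
  rw [coeff_D, coeff_rescale, coeff_C_mul, coeff_rescale, coeff_D]
  ring

lemma rescale_aeval {ι : Type} (a : ℚ) (u : ι → PS) (P : MvPolynomial ι ℚ) :
    rescale a (MvPolynomial.aeval u P) = MvPolynomial.aeval (fun i => rescale a (u i)) P := by
  induction P using MvPolynomial.induction_on with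
  | C x =>
    rw [MvPolynomial.aeval_C, MvPolynomial.aeval_C]
    show rescale a (C x) = C x
    ext n
    rw [coeff_rescale, coeff_C]
    split_ifs with h
    · rw [h]; simp
    · simp
  | add p q hp hq => rw [map_add, map_add, map_add, hp, hq]
  | mul_X p i hp => rw [map_mul, map_mul, map_mul, hp, MvPolynomial.aeval_X, MvPolynomial.aeval_X]

theorem intPart {ι : Type} [Fintype ι] (u : ι → PS) (R : ι → MvPolynomial ι ℚ)
    (hR : ∀ i, D (u i) = MvPolynomial.aeval u (R i)) (G : MvPolynomial ι ℚ) :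
    ∃ B : ℕ, 1 ≤ B ∧ ∀ k : ℕ, ∃ n : ℤ,
      ((B : ℚ) ^ (k + 1) * (k.factorial : ℚ)) * coeff k (MvPolynomial.aeval u G) = n := by
  classical
  obtain ⟨b, hb⟩ : ∃ b : ℕ, b = ∏ i, (ev (u i)).den := ⟨_, rfl⟩
  have hb1 : 1 ≤ b := by
    rw [hb]
    exact Finset.prod_pos fun i _ => (ev (u i)).pos
  choose m hm1 hm using fun i => clear b hb1 (R i)
  obtain ⟨mG, hmG1, hmG⟩ := clear b hb1 G
  obtain ⟨B, hB⟩ : ∃ B : ℕ, B = ∏ i, m i := ⟨_, rfl⟩
  have hB1 : 1 ≤ B := by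
    rw [hB]
    exact Finset.prod_pos fun i _ => Nat.lt_of_lt_of_le Nat.zero_lt_one (hm1 i)
  have hdvd : ∀ i, m i ∣ B := fun i => by rw [hB]; exact Finset.dvd_prod_of_mem m (mem_univ i)
  obtain ⟨y, hy⟩ : ∃ y : ι → PS, y = fun i => rescale (B : ℚ) (u i) := ⟨_, rfl⟩
  obtain ⟨X, hX⟩ : ∃ X : Set PS, X = Set.range fun i => C (b : ℚ) * y i := ⟨_, rfl⟩
  have hyX : ∀ i, C (b : ℚ) * y i ∈ Subring.closure X := fun i =>
    Subring.subset_closure (by rw [hX]; exact ⟨i, rfl⟩)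
  have h1 : ∀ v ∈ X, D v ∈ Subring.closure X := by
    intro v hv
    rw [hX] at hv
    obtain ⟨i, rfl⟩ := hv
    obtain ⟨c, hc⟩ := hdvd i
    have e1 : D (C (b : ℚ) * y i) = ((b * c : ℕ) : PS) * (C (m i : ℚ) * MvPolynomial.aeval y (R i)) := by
      rw [D_mul, D_C, mul_zero, add_zero]
      have e2 : D (y i) = C (B : ℚ) * MvPolynomial.aeval y (R i) := by
        rw [hy]
        simp only
        rw [D_rescale, hR, rescale_aeval]
      rw [e2, hc]
      push_cast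
      rw [map_mul, map_natCast, map_natCast, map_natCast]
      ring
    show D (C (b : ℚ) * y i) ∈ _
    rw [e1]
    exact Subring.mul_mem _ (natCast_mem _ _) (hm i y _ hyX)
  have h2 : ∀ v ∈ X, ∃ n : ℤ, ev v = n := by
    intro v hv
    rw [hX] at hv
    obtain ⟨i, rfl⟩ := hv
    have hd : (ev (u i)).den ∣ b := by rw [hb]; exact Finset.dvd_prod_of_mem _ (mem_univ i)
    obtain ⟨c, hc⟩ := hd
    refine ⟨c * (ev (u i)).num, ?_⟩
    have e1 : ev (C (b : ℚ) * y i) = (b : ℚ) * ev (u i) := by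
      unfold ev
      rw [map_mul, constantCoeff_C, hy]
      simp only
      rw [← coeff_zero_eq_constantCoeff_apply, coeff_rescale, pow_zero, one_mul,
        coeff_zero_eq_constantCoeff_apply]
    show ev (C (b : ℚ) * y i) = _
    rw [e1, hc]
    push_cast
    have e2 := Rat.mul_den_eq_num (ev (u i))
    calc ((ev (u i)).den : ℚ) * c * ev (u i) = c * (ev (u i) * (ev (u i)).den) := by ring
      _ = _ := by rw [e2]
  have h3 : C (mG : ℚ) * MvPolynomial.aeval y G ∈ Subring.closure X := hmG y _ hyX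
  refine ⟨B * mG, Nat.mul_pos hB1 hmG1, fun k => ?_⟩
  obtain ⟨n, hn⟩ := closure_coeff X h1 h2 _ h3 k
  have e3 : MvPolynomial.aeval y G = rescale (B : ℚ) (MvPolynomial.aeval u G) := by
    rw [rescale_aeval, hy]
  rw [e3, coeff_C_mul, coeff_rescale] at hn
  refine ⟨B * mG ^ k * n, ?_⟩
  push_cast
  rw [← hn]
  ring

/-! ### archimedean bounds -/

def Mj (K A : ℝ) (n : ℕ) (f : PS) : Prop :=
  ∀ k ≤ n, |((coeff k f : ℚ) : ℝ)| * ((k : ℝ) + 1) ^ 2 ≤ K * A ^ k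

lemma sum_sq (k : ℕ) : ∑ i ∈ range (k + 1), 1 / ((i : ℝ) + 1) ^ 2 ≤ 2 - 1 / ((k : ℝ) + 1) := by
  induction k with
  | zero => simp; norm_num
  | succ k ih =>
    rw [sum_range_succ]
    have h1 : 1 / (((k + 1 : ℕ) : ℝ) + 1) ^ 2 ≤ 1 / ((k : ℝ) + 1) - 1 / (((k + 1 : ℕ) : ℝ) + 1) := by
      push_cast
      rw [div_sub_div _ _ (by positivity) (by positivity), div_le_div_iff₀ (by positivity) (by positivity)]
      nlinarith [(Nat.cast_nonneg k : (0 : ℝ) ≤ k)]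
    linarith

lemma conv (k : ℕ) : ∑ p ∈ antidiagonal k, 1 / (((p.1 : ℝ) + 1) ^ 2 * ((p.2 : ℝ) + 1) ^ 2) ≤
    8 / ((k : ℝ) + 1) ^ 2 := by
  have h1 : ∀ p ∈ antidiagonal k, 1 / (((p.1 : ℝ) + 1) ^ 2 * ((p.2 : ℝ) + 1) ^ 2) ≤
      2 / ((k : ℝ) + 1) ^ 2 * (1 / ((p.1 : ℝ) + 1) ^ 2 + 1 / ((p.2 : ℝ) + 1) ^ 2) := by
    intro p hp
    rw [Finset.HasAntidiagonal.mem_antidiagonal] at hp
    have e1 : (k : ℝ) = p.1 + p.2 := by exact_mod_cast hp.symm
    obtain ⟨a, ha⟩ : ∃ a : ℝ, a = (p.1 : ℝ) + 1 := ⟨_, rfl⟩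
    obtain ⟨b, hb⟩ : ∃ b : ℝ, b = (p.2 : ℝ) + 1 := ⟨_, rfl⟩
    have ha1 : 1 ≤ a := by rw [ha]; linarith [(Nat.cast_nonneg p.1 : (0 : ℝ) ≤ p.1)]
    have hb1 : 1 ≤ b := by rw [hb]; linarith [(Nat.cast_nonneg p.2 : (0 : ℝ) ≤ p.2)]
    have hk : (k : ℝ) + 1 ≤ a + b := by rw [e1, ha, hb]; linarith
    have hk0 : (0 : ℝ) < (k : ℝ) + 1 := by positivity
    rw [← ha, ← hb]
    have ha0 : 0 < a := by linarith
    have hb0 : 0 < b := by linarith
    have e2 : 2 / ((k : ℝ) + 1) ^ 2 * (1 / a ^ 2 + 1 / b ^ 2) =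
        (2 * (a ^ 2 + b ^ 2)) / (((k : ℝ) + 1) ^ 2 * (a ^ 2 * b ^ 2)) := by
      field_simp
      ring
    rw [e2, div_le_div_iff₀ (by positivity) (by positivity)]
    have h2 : ((k : ℝ) + 1) ^ 2 ≤ 2 * (a ^ 2 + b ^ 2) := by
      have : ((k : ℝ) + 1) ^ 2 ≤ (a + b) ^ 2 := pow_le_pow_left₀ hk0.le hk 2
      nlinarith [sq_nonneg (a - b)]
    have h3 : 0 ≤ a ^ 2 * b ^ 2 := by positivity
    nlinarith [mul_le_mul_of_nonneg_right h2 h3]
  refine (sum_le_sum h1).trans ?_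
  rw [← mul_sum, sum_add_distrib]
  have h2 : ∑ p ∈ antidiagonal k, 1 / ((p.1 : ℝ) + 1) ^ 2 ≤ 2 := by
    rw [Finset.Nat.sum_antidiagonal_eq_sum_range_succ_mk]
    refine (sum_sq k).trans ?_
    have : (0 : ℝ) ≤ 1 / ((k : ℝ) + 1) := by positivity
    linarith
  have h3 : ∑ p ∈ antidiagonal k, 1 / ((p.2 : ℝ) + 1) ^ 2 ≤ 2 := by
    rw [← Finset.Nat.sum_antidiagonal_swap]
    exact h2
  calc 2 / ((k : ℝ) + 1) ^ 2 * _ ≤ 2 / ((k : ℝ) + 1) ^ 2 * (2 + 2) := by gcongr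
    _ = 8 / ((k : ℝ) + 1) ^ 2 := by ring

lemma Mj.mul {K L A : ℝ} {n : ℕ} {f g : PS} (hK : 0 ≤ K) (hL : 0 ≤ L) (hA : 0 ≤ A) (hf : Mj K A n f)
    (hg : Mj L A n g) : Mj (8 * (K * L)) A n (f * g) := by
  intro k hk
  have h0 : (0 : ℝ) < ((k : ℝ) + 1) ^ 2 := by positivity
  have h1 : |((coeff k (f * g) : ℚ) : ℝ)| ≤ ∑ p ∈ antidiagonal k,
      K * L * A ^ k * (1 / (((p.1 : ℝ) + 1) ^ 2 * ((p.2 : ℝ) + 1) ^ 2)) := by
    rw [coeff_mul]
    push_cast
    refine (abs_sum_le_sum_abs _ _).trans (sum_le_sum fun p hp => ?_)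
    rw [Finset.HasAntidiagonal.mem_antidiagonal] at hp
    have h2 := hf p.1 (by omega)
    have h3 := hg p.2 (by omega)
    have ha : (0 : ℝ) < ((p.1 : ℝ) + 1) ^ 2 := by positivity
    have hb : (0 : ℝ) < ((p.2 : ℝ) + 1) ^ 2 := by positivity
    rw [abs_mul, mul_one_div, le_div_iff₀ (by positivity)]
    calc |((coeff p.1 f : ℚ) : ℝ)| * |((coeff p.2 g : ℚ) : ℝ)| * (((p.1 : ℝ) + 1) ^ 2 * ((p.2 : ℝ) + 1) ^ 2) =
        (|((coeff p.1 f : ℚ) : ℝ)| * ((p.1 : ℝ) + 1) ^ 2) *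
          (|((coeff p.2 g : ℚ) : ℝ)| * ((p.2 : ℝ) + 1) ^ 2) := by ring
      _ ≤ (K * A ^ p.1) * (L * A ^ p.2) := mul_le_mul h2 h3 (by positivity) (by positivity)
      _ = K * L * A ^ k := by rw [← hp, pow_add]; ring
  rw [← mul_sum] at h1
  have h2 : |((coeff k (f * g) : ℚ) : ℝ)| ≤ K * L * A ^ k * (8 / ((k : ℝ) + 1) ^ 2) :=
    h1.trans (mul_le_mul_of_nonneg_left (conv k) (by positivity))
  calc |((coeff k (f * g) : ℚ) : ℝ)| * ((k : ℝ) + 1) ^ 2 ≤
      K * L * A ^ k * (8 / ((k : ℝ) + 1) ^ 2) * ((k : ℝ) + 1) ^ 2 := mul_le_mul_of_nonneg_right h2 h0.le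
    _ = 8 * (K * L) * A ^ k := by field_simp

lemma Mj.add {K L A : ℝ} {n : ℕ} {f g : PS} (hf : Mj K A n f)
    (hg : Mj L A n g) : Mj (K + L) A n (f + g) := by
  intro k hk
  have h2 := hf k hk
  have h3 := hg k hk
  have h0 : (0 : ℝ) ≤ ((k : ℝ) + 1) ^ 2 := by positivity
  rw [map_add]
  push_cast
  calc _ ≤ (|((coeff k f : ℚ) : ℝ)| + |((coeff k g : ℚ) : ℝ)|) * ((k : ℝ) + 1) ^ 2 :=
        mul_le_mul_of_nonneg_right (abs_add_le _ _) h0
    _ ≤ _ := by rw [add_mul, add_mul]; exact add_le_add h2 h3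

lemma Mj.const {A : ℝ} (hA : 0 ≤ A) (n : ℕ) (x : ℚ) : Mj |(x : ℝ)| A n (C x) := by
  intro k _
  rw [coeff_C]
  split_ifs with h
  · rw [h]; simp
  · simp only [Rat.cast_zero, abs_zero, zero_mul]
    positivity

lemma poly {ι : Type} (P : MvPolynomial ι ℚ) (K : ℝ) (hK : 0 ≤ K) : ∃ K' : ℝ, 0 ≤ K' ∧
    ∀ (u : ι → PS) (A : ℝ) (n : ℕ), 0 ≤ A → (∀ i, Mj K A n (u i)) → Mj K' A n (MvPolynomial.aeval u P) := by
  induction P using MvPolynomial.induction_on with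
  | C x =>
    refine ⟨|(x : ℝ)|, abs_nonneg _, fun u A n hA _ => ?_⟩
    rw [MvPolynomial.aeval_C]
    exact Mj.const hA n x
  | add p q hp hq =>
    obtain ⟨k1, hk1, h1⟩ := hp
    obtain ⟨k2, hk2, h2⟩ := hq
    refine ⟨k1 + k2, by positivity, fun u A n hA hu => ?_⟩
    rw [map_add]
    exact (h1 u A n hA hu).add (h2 u A n hA hu)
  | mul_X p i hp =>
    obtain ⟨k1, hk1, h1⟩ := hp
    refine ⟨8 * (k1 * K), by positivity, fun u A n hA hu => ?_⟩
    rw [map_mul, MvPolynomial.aeval_X]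
    exact (h1 u A n hA hu).mul hk1 hK hA (hu i)

theorem absPart {ι : Type} [Fintype ι] (u : ι → PS) (R : ι → MvPolynomial ι ℚ)
    (hR : ∀ i, D (u i) = MvPolynomial.aeval u (R i)) (G : MvPolynomial ι ℚ) :
    ∃ C : ℝ, 1 ≤ C ∧ ∀ k : ℕ, |((coeff k (MvPolynomial.aeval u G) : ℚ) : ℝ)| ≤ C ^ (k + 1) := by
  classical
  obtain ⟨K, hK⟩ : ∃ K : ℝ, K = 1 + ∑ i, |((ev (u i) : ℚ) : ℝ)| := ⟨_, rfl⟩
  have hs0 : 0 ≤ ∑ i, |((ev (u i) : ℚ) : ℝ)| := sum_nonneg fun i _ => abs_nonneg _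
  have hK1 : 1 ≤ K := by rw [hK]; linarith
  have hKi : ∀ i, |((ev (u i) : ℚ) : ℝ)| ≤ K := by
    intro i
    have := single_le_sum (f := fun i => |((ev (u i) : ℚ) : ℝ)|) (fun i _ => abs_nonneg _) (mem_univ i)
    linarith
  choose K1 hK10 hK1' using fun i => poly (R i) K (by linarith)
  obtain ⟨K2, hK20, hK2⟩ := poly G K (by linarith)
  obtain ⟨S, hS⟩ : ∃ S : ℝ, S = ∑ i, K1 i := ⟨_, rfl⟩
  have hS0 : 0 ≤ S := by rw [hS]; exact sum_nonneg fun i _ => hK10 i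
  have hSi : ∀ i, K1 i ≤ S := fun i => by rw [hS]; exact single_le_sum (fun i _ => hK10 i) (mem_univ i)
  obtain ⟨A, hA⟩ : ∃ A : ℝ, A = 4 * S + 1 := ⟨_, rfl⟩
  have hA1 : 1 ≤ A := by rw [hA]; linarith
  have hA0 : 0 ≤ A := by linarith
  have key : ∀ n : ℕ, ∀ i, Mj K A n (u i) := by
    intro n
    induction n with
    | zero =>
      intro i k hk
      have : k = 0 := by omega
      subst this
      have h1 : (coeff 0 (u i) : ℚ) = ev (u i) := by
        unfold ev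
        rw [coeff_zero_eq_constantCoeff_apply]
      rw [h1]
      simpa using hKi i
    | succ n ih =>
      intro i k hk
      rcases Nat.lt_or_ge k (n + 1) with h | h
      · exact ih i k (by omega)
      have : k = n + 1 := by omega
      subst this
      have h1 := hK1' i u A n hA0 ih n le_rfl
      rw [← hR, coeff_D] at h1
      push_cast at h1 ⊢
      rw [abs_mul] at h1
      have hn : (0 : ℝ) ≤ n := Nat.cast_nonneg n
      rw [abs_of_nonneg (by linarith : (0 : ℝ) ≤ (n : ℝ) + 1)] at h1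
      obtain ⟨x, hx⟩ : ∃ x : ℝ, x = |((coeff (n + 1) (u i) : ℚ) : ℝ)| := ⟨_, rfl⟩
      rw [← hx] at h1 ⊢
      have hx0 : 0 ≤ x := by rw [hx]; exact abs_nonneg _
      have hAn : 0 ≤ A ^ n := by positivity
      have h2 : x * ((n : ℝ) + 1 + 1) ^ 2 ≤ 4 * (x * ((n : ℝ) + 1) * ((n : ℝ) + 1) ^ 2) := by
        have h3 : ((n : ℝ) + 1 + 1) ^ 2 ≤ 4 * (((n : ℝ) + 1) * ((n : ℝ) + 1) ^ 2) := by nlinarith [sq_nonneg (n : ℝ), mul_nonneg hn (sq_nonneg (n : ℝ))]
        calc x * ((n : ℝ) + 1 + 1) ^ 2 ≤ x * (4 * (((n : ℝ) + 1) * ((n : ℝ) + 1) ^ 2)) :=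
              mul_le_mul_of_nonneg_left h3 hx0
          _ = _ := by ring
      calc x * ((n : ℝ) + 1 + 1) ^ 2 ≤ 4 * (K1 i * A ^ n) := h2.trans (mul_le_mul_of_nonneg_left h1 (by norm_num))
        _ ≤ 4 * (S * A ^ n) := by
            have := mul_le_mul_of_nonneg_right (hSi i) hAn
            linarith
        _ = 4 * S * A ^ n := by ring
        _ ≤ A * A ^ n := mul_le_mul_of_nonneg_right (by rw [hA]; linarith) hAn
        _ = 1 * A ^ (n + 1) := by rw [pow_succ]; ring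
        _ ≤ K * A ^ (n + 1) := mul_le_mul_of_nonneg_right hK1 (by positivity)
  refine ⟨K2 + A, by linarith, fun k => ?_⟩
  have h1 := hK2 u A k hA0 (key k) k le_rfl
  have h2 : |((coeff k (MvPolynomial.aeval u G) : ℚ) : ℝ)| ≤ K2 * A ^ k := by
    refine le_trans ?_ h1
    have h3 : (1 : ℝ) ≤ ((k : ℝ) + 1) ^ 2 := by
      have : (0 : ℝ) ≤ k := Nat.cast_nonneg k
      nlinarith
    exact le_mul_of_one_le_right (abs_nonneg _) h3
  refine h2.trans ?_
  rw [pow_succ, mul_comm]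
  have h3 : A ^ k ≤ (K2 + A) ^ k := pow_le_pow_left₀ hA0 (by linarith) k
  exact mul_le_mul h3 (by linarith) hK20 (by positivity)

/-! ### the final statement -/

lemma pm_closed {τ : Type} (K : Subalgebra ℚ PS) (pt : τ → PS) (h1 : ∀ t, pt t ∈ K) (h2 : ∀ t, D (pt t) ∈ K)
    (H : MvPolynomial τ ℚ) : MvPolynomial.aeval pt H ∈ K ∧ D (MvPolynomial.aeval pt H) ∈ K := by
  induction H using MvPolynomial.induction_on with
  | C a =>
    rw [MvPolynomial.aeval_C]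
    refine ⟨K.algebraMap_mem a, ?_⟩
    have : algebraMap ℚ PS a = C a := rfl
    rw [this, D_C]
    exact K.zero_mem
  | add p q hp hq =>
    rw [map_add, D_add]
    exact ⟨K.add_mem hp.1 hq.1, K.add_mem hp.2 hq.2⟩
  | mul_X p i hp =>
    rw [map_mul, MvPolynomial.aeval_X, D_mul]
    exact ⟨K.mul_mem hp.1 (h1 i), K.add_mem (K.mul_mem hp.1 (h2 i)) (K.mul_mem (h1 i) hp.2)⟩

lemma D_inv (f : PS) : D f⁻¹ = -(f⁻¹ ^ 2) * D f := by
  unfold D
  rw [PowerSeries.derivative_inv']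

lemma ev_aeval {s : ℕ} (w : Fin s → PS) (Q : MvPolynomial (Fin s) ℚ) :
    ev (MvPolynomial.aeval w Q) = MvPolynomial.eval (c0 w) Q := by
  induction Q using MvPolynomial.induction_on with
  | C a =>
    rw [MvPolynomial.aeval_C, MvPolynomial.eval_C]
    exact constantCoeff_C a
  | add p q hp hq =>
    rw [map_add, map_add, ← hp, ← hq]
    exact map_add _ _ _
  | mul_X p i hp =>
    rw [map_mul, map_mul, MvPolynomial.aeval_X, MvPolynomial.eval_X, ← hp]
    exact map_mul _ _ _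

theorem t_GB (h2 : S_DCL) : S_GB := by
  intro s w N M hA g hg
  classical
  obtain ⟨P, Q, hQ, hPQ⟩ := hg
  obtain ⟨u, hu⟩ : ∃ u : (Fin s ⊕ Fin s) ⊕ Unit → PS, u = Sum.elim (Sum.elim w
      (fun i => (MvPolynomial.aeval (pt1 w) (M i))⁻¹)) (fun _ => (MvPolynomial.aeval w Q)⁻¹) := ⟨_, rfl⟩
  obtain ⟨K, hK⟩ : ∃ K : Subalgebra ℚ PS, K = Algebra.adjoin ℚ (Set.range u) := ⟨_, rfl⟩
  have hin : ∀ i, u i ∈ K := fun i => by rw [hK]; exact Algebra.subset_adjoin ⟨i, rfl⟩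
  have hw : ∀ i, w i ∈ K := fun i => by
    have := hin (Sum.inl (Sum.inl i))
    rwa [hu] at this
  have hr : ∀ i, (MvPolynomial.aeval (pt1 w) (M i))⁻¹ ∈ K := fun i => by
    have := hin (Sum.inl (Sum.inr i))
    rwa [hu] at this
  have hq : (MvPolynomial.aeval w Q)⁻¹ ∈ K := by
    have := hin (Sum.inr ())
    rwa [hu] at this
  have hC : ∀ x : ℚ, C x ∈ K := fun x => K.algebraMap_mem x
  have hpt1 : ∀ t, pt1 w t ∈ K := by
    rintro (i | i)
    · exact hw i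
    · exact hC _
  have hmem : ∀ {τ : Type} (pt : τ → PS), (∀ t, pt t ∈ K) → ∀ H : MvPolynomial τ ℚ, MvPolynomial.aeval pt H ∈ K := by
    intro τ pt h H
    induction H using MvPolynomial.induction_on with
    | C a => rw [MvPolynomial.aeval_C]; exact K.algebraMap_mem a
    | add p q hp hq => rw [map_add]; exact K.add_mem hp hq
    | mul_X p i hp => rw [map_mul, MvPolynomial.aeval_X]; exact K.mul_mem hp (h i)
  have hv : ∀ i j, vv w N M i j ∈ K := fun i j => by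
    unfold vv
    exact K.mul_mem (K.sub_mem (hmem _ hpt1 _) (K.mul_mem (hw i) (hmem _ hpt1 _))) (hr i)
  have hDw : ∀ i, D (w i) ∈ K := fun i => by
    rw [(h2 s w N M hA).1 i]
    exact K.sum_mem fun j _ => K.mul_mem (hC _) (hv i j)
  have hDpt1 : ∀ t, D (pt1 w t) ∈ K := by
    rintro (i | i)
    · exact hDw i
    · show D (C (c0 w i)) ∈ K
      rw [D_C]
      exact K.zero_mem
  have hDu : ∀ i, D (u i) ∈ K := by
    intro i
    rw [hu]
    rcases i with (i | i) | i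
    · exact hDw i
    · show D (MvPolynomial.aeval (pt1 w) (M i))⁻¹ ∈ K
      rw [D_inv]
      exact K.mul_mem (K.neg_mem (K.pow_mem (hr i) 2)) (pm_closed K _ hpt1 hDpt1 _).2
    · show D (MvPolynomial.aeval w Q)⁻¹ ∈ K
      rw [D_inv]
      exact K.mul_mem (K.neg_mem (K.pow_mem hq 2)) (pm_closed K _ hw hDw _).2
  have hpoly : ∀ f ∈ K, ∃ R : MvPolynomial ((Fin s ⊕ Fin s) ⊕ Unit) ℚ, f = MvPolynomial.aeval u R := by
    intro f hf
    rw [hK, Algebra.adjoin_range_eq_range_aeval] at hf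
    obtain ⟨R, hR⟩ := hf
    exact ⟨R, hR.symm⟩
  choose R hR using fun i => hpoly _ (hDu i)
  have hev : ev (MvPolynomial.aeval w Q) = MvPolynomial.eval (c0 w) Q := ev_aeval w Q
  have hg : g ∈ K := by
    have h1 : constantCoeff (MvPolynomial.aeval w Q) ≠ 0 := by
      have := hQ
      rw [← hev] at this
      exact this
    have h3 : g = (MvPolynomial.aeval w Q)⁻¹ * MvPolynomial.aeval w P := by
      rw [← hPQ, ← mul_assoc, PowerSeries.inv_mul_cancel _ h1, one_mul]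
    rw [h3]
    exact K.mul_mem hq (hmem _ hw _)
  obtain ⟨G, hG⟩ := hpoly g hg
  rw [hG]
  exact ⟨intPart u R hR G, absPart u R hR G⟩

end Run7.h440.AD
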