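import Pool.Agent.Run7.h440.AD.GB

/-! Piece DIA of project AD (helper131): the duplication formula. -/

set_option autoImplicit false

namespace Run7.h440.AD.Dia

open Run7.h131.AD PowerSeries Finset

/-- restriction to the diagonal -/
noncomputable def Del (E : PowerSeries PS) : PS :=
  PowerSeries.mk fun n => ∑ p ∈ antidiagonal n, coeff p.2 (coeff p.1 E)

lemma coeff_Del (n : ℕ) (E : PowerSeries PS) :
    coeff n (Del E) = ∑ p ∈ antidiagonal n, coeff p.2 (coeff p.1 E) := coeff_mk _ _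

lemma Del_add (E F : PowerSeries PS) : Del (E + F) = Del E + Del F := by
  ext n
  rw [map_add, coeff_Del, coeff_Del, coeff_Del, ← sum_add_distrib]
  exact sum_congr rfl fun p _ => by rw [map_add, map_add]

lemma Del_mul (E F : PowerSeries PS) : Del (E * F) = Del E * Del F := by
  ext n
  rw [coeff_Del, coeff_mul]
  have h1 : ∀ p ∈ antidiagonal n, coeff p.2 (coeff p.1 (E * F)) =
      ∑ a ∈ antidiagonal p.1, ∑ b ∈ antidiagonal p.2, coeff b.1 (coeff a.1 E) * coeff b.2 (coeff a.2 F) := by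
    intro p _
    rw [coeff_mul, map_sum]
    exact sum_congr rfl fun a _ => coeff_mul _ _ _
  have h2 : ∀ p ∈ antidiagonal n, coeff p.1 (Del E) * coeff p.2 (Del F) =
      ∑ a ∈ antidiagonal p.1, ∑ b ∈ antidiagonal p.2, coeff a.2 (coeff a.1 E) * coeff b.2 (coeff b.1 F) := by
    intro p _
    rw [coeff_Del, coeff_Del, sum_mul_sum]
  rw [sum_congr rfl h1, sum_congr rfl h2]
  simp only [sum_sigma']
  refine sum_nbij' (fun x => ⟨(x.2.1.1 + x.2.2.1, x.2.1.2 + x.2.2.2), (x.2.1.1, x.2.2.1), (x.2.1.2, x.2.2.2)⟩)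
    (fun x => ⟨(x.2.1.1 + x.2.2.1, x.2.1.2 + x.2.2.2), (x.2.1.1, x.2.2.1), (x.2.1.2, x.2.2.2)⟩) ?_ ?_ ?_ ?_ ?_
  · rintro ⟨⟨k, l⟩, ⟨a, b⟩, ⟨c, d⟩⟩ h
    simp only [mem_sigma, Finset.HasAntidiagonal.mem_antidiagonal] at h
    obtain ⟨h1, h2, h3⟩ := h
    subst h2 h3
    simp only [mem_sigma, Finset.HasAntidiagonal.mem_antidiagonal]
    refine ⟨?_, trivial, trivial⟩
    rw [← h1]
    show a + c + (b + d) = a + b + (c + d)
    ring
  · rintro ⟨⟨k, l⟩, ⟨a, b⟩, ⟨c, d⟩⟩ h
    simp only [mem_sigma, Finset.HasAntidiagonal.mem_antidiagonal] at h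
    obtain ⟨h1, h2, h3⟩ := h
    subst h2 h3
    simp only [mem_sigma, Finset.HasAntidiagonal.mem_antidiagonal]
    refine ⟨?_, trivial, trivial⟩
    rw [← h1]
    show a + c + (b + d) = a + b + (c + d)
    ring
  · rintro ⟨⟨k, l⟩, ⟨a, b⟩, ⟨c, d⟩⟩ h
    simp only [mem_sigma, Finset.HasAntidiagonal.mem_antidiagonal] at h
    obtain ⟨h1, h2, h3⟩ := h
    subst h2 h3
    rfl
  · rintro ⟨⟨k, l⟩, ⟨a, b⟩, ⟨c, d⟩⟩ h
    simp only [mem_sigma, Finset.HasAntidiagonal.mem_antidiagonal] at h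
    obtain ⟨h1, h2, h3⟩ := h
    subst h2 h3
    rfl
  · rintro ⟨⟨k, l⟩, ⟨a, b⟩, ⟨c, d⟩⟩ h
    rfl

lemma Del_CC (x : ℚ) : Del (C (C x)) = C x := by
  ext n
  rw [coeff_Del, sum_eq_single (0, n)]
  · rw [coeff_C, if_pos rfl]
  · intro p hp hne
    rw [Finset.HasAntidiagonal.mem_antidiagonal] at hp
    rw [coeff_C, if_neg, map_zero]
    intro h
    exact hne (Prod.ext h (by show p.2 = n; omega))
  · intro h
    exact absurd (Finset.HasAntidiagonal.mem_antidiagonal.mpr (zero_add n)) h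

lemma Del_inX (g : PS) : Del (inX g) = g := by
  ext n
  unfold inX
  rw [coeff_Del, sum_eq_single (n, 0)]
  · rw [coeff_mk, coeff_C, if_pos rfl]
  · intro p hp hne
    rw [Finset.HasAntidiagonal.mem_antidiagonal] at hp
    rw [coeff_mk, coeff_C, if_neg]
    intro h
    exact hne (Prod.ext (by show p.1 = n; omega) h)
  · intro h
    exact absurd (Finset.HasAntidiagonal.mem_antidiagonal.mpr (add_zero n)) h

lemma Del_inY (g : PS) : Del (inY g) = g := by
  ext n
  unfold inY
  rw [coeff_Del, sum_eq_single (0, n)]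
  · rw [coeff_C, if_pos rfl]
  · intro p hp hne
    rw [Finset.HasAntidiagonal.mem_antidiagonal] at hp
    rw [coeff_C, if_neg, map_zero]
    intro h
    exact hne (Prod.ext h (by show p.2 = n; omega))
  · intro h
    exact absurd (Finset.HasAntidiagonal.mem_antidiagonal.mpr (zero_add n)) h

lemma Del_tay (g : PS) : Del (tay g) = rescale 2 g := by
  ext n
  unfold tay
  rw [coeff_Del, coeff_rescale]
  have h1 : ∀ p ∈ antidiagonal n, coeff p.2 (coeff p.1 (PowerSeries.mk fun k =>
      PowerSeries.C ((k.factorial : ℚ)⁻¹) * D^[k] g)) = (n.choose p.1 : ℚ) * coeff n g := by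
    intro p hp
    rw [Finset.HasAntidiagonal.mem_antidiagonal] at hp
    rw [coeff_mk, coeff_C_mul]
    have h2 := coeff_iter p.1 p.2 g
    have e1 : p.2 + p.1 = n := by omega
    rw [e1] at h2
    have f1 : (p.1.factorial : ℚ) ≠ 0 := by exact_mod_cast Nat.factorial_ne_zero _
    have f2 : (p.2.factorial : ℚ) ≠ 0 := by exact_mod_cast Nat.factorial_ne_zero _
    have h3 : (n.choose p.1 : ℚ) * (p.1.factorial * p.2.factorial) = n.factorial := by
      have := Nat.choose_mul_factorial_mul_factorial (by omega : p.1 ≤ n)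
      have e2 : n - p.1 = p.2 := by omega
      rw [e2] at this
      rw [← this]
      push_cast
      ring
    rw [← h3] at h2
    field_simp
    refine mul_right_cancel₀ f2 ?_
    rw [h2]
    ring
  rw [sum_congr rfl h1, ← sum_mul,
    Finset.Nat.sum_antidiagonal_eq_sum_range_succ (fun i _ => (n.choose i : ℚ))]
  congr 1
  have := Nat.sum_range_choose n
  exact_mod_cast this

lemma Del_aeval {s : ℕ} (w : Fin s → PS) (P : MvPolynomial (Fin s ⊕ Fin s) ℚ) :
    Del (MvPolynomial.aeval (pt2 w) P) = MvPolynomial.aeval (Sum.elim w w) P := by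
  induction P using MvPolynomial.induction_on with
  | C a =>
    rw [MvPolynomial.aeval_C, MvPolynomial.aeval_C]
    have e1 : algebraMap ℚ PS a = C a := rfl
    have e2 : algebraMap ℚ (PowerSeries PS) a = C (C a) := by
      rw [PowerSeries.algebraMap_apply, e1]
    rw [e1, e2]
    exact Del_CC a
  | add p q hp hq => rw [map_add, map_add, Del_add, hp, hq]
  | mul_X p i hp =>
    rw [map_mul, map_mul, Del_mul, hp, MvPolynomial.aeval_X, MvPolynomial.aeval_X]
    congr 1
    rcases i with i | i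
    · exact Del_inX (w i)
    · exact Del_inY (w i)

theorem t_DIA : S_DIA := by
  intro s w N M hA i
  have := congrArg Del (hA.add i)
  rwa [Del_mul, Del_aeval, Del_aeval, Del_tay] at this

end Run7.h440.AD.Dia
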